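import Pool.Agent.Lib.MP_361a6f_ag.FL.FIN.ThmA

/-!
# The standard conjecture of Hodge type for all powers of abelian varieties in characteristic `p`

Let `X` be an abelian variety over an algebraically closed field `k` of characteristic `p`, defined
over a finitely generated field `k₀`. A piece is a subspace of `H^1(X)` that belongs to one
homomorphism `σ` from the centre of the endomorphism algebra of `X` to `ℂ`. Suppose that `X` has no
simple factor of type IV (all `σ` are real) or, more generally, that the pieces of the factors of
type IV are balanced (see below), and that

* `dim X ≤ 11`, or
* `X` is simple and `dim X ≤ 23`, or
* `X` is a product of any number of simple abelian varieties of dimension at most `3` that are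
  pairwise not isogenous, or
* the centre of the endomorphism algebra of `X` has at most `5` real embeddings; for instance all
  simple factors of `X` are of type IV, or
* at some place of `k₀` no simple factor of `X` has potentially good reduction; for instance `X`
  is simple and not potentially good at one place: then there is NO condition on the dimension or
  on the centre, or
* at some place of `k₀` there is no relation `a_1 ⋯ a_L = q^(L/2)` between eigenvalues `a_i` of
  Frobenius that belong to different real pieces, `L ≥ 6` even: then there is NO condition on the
  dimension or on the number of the pieces.

The theorem says that `Q1` holds for every power `X^n` of `X` with EVERY ample class `L`, in all
codimensions and for ALL algebraic classes, and that numerical and homological equivalence coincide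
on all powers of `X`, for every Weil cohomology of this kind. The classes `L` are the divisor
classes on `X^n` such that all numbers `Tr(L^i h^(N-i))` are positive, where `N = dim X^n` and `h =
∑ pr_i^* ξ`; on an abelian variety these are the ample classes (the roots of the polynomial `Tr((h t
+ L)^N)` are real by Mumford, and the number of positive ones is the index of `L`). Nothing is
assumed on liftings, on the monodromy group or on the Galois group of the centre, and neither the
Tate conjecture nor the Hodge conjecture is assumed. Known were `dim X = 4` without powers (Ancona),
the squares of simple abelian varieties of prime dimension, modulo numerical equivalence
(Koshikawa), the powers of abelian varieties of dimension at most `3` (Agugliaro), and the classes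
which are generated by divisor classes and by liftable classes (Milne).

A piece `V_σ` of a factor of type IV is balanced if all algebraic classes on the powers of `X` are
sums of tensors with as many letters in `V_σ` as in the piece of the complex conjugate of `σ`. This
excludes the classes of Weil type. All pieces are balanced if, at one place of good reduction, `q`
and the determinants of Frobenius on the pieces `V_σ`, one from each pair of conjugate pieces, are
multiplicatively independent (then the centre of the Zariski closure of the group generated by
Frobenius and the monodromy contains the operator which is `2` on `V_σ`, `1/2` on the conjugate
piece and `1` on the others). Example: `X` is simple of odd dimension and the centre of its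
endomorphism algebra is an imaginary quadratic field in which `p` splits (the two parts of the
`p`-divisible group have the same height and different dimensions). What remains open for abelian
varieties: factors of type IV which are not balanced (in codimension at least `3`), and varieties of
dimension at least `12` with such relations `a_1 ⋯ a_L = q^(L/2)` at all places.

The hypotheses are satisfied by such an `X` (this is not proved here), for `W = H_ℓ ⊗ ℂ` with an
embedding of `ℚ_ℓ` in `ℂ` and a generator of `ℤ_ℓ(1)`. The only theorem on `X'` among them is the
theorem of Tate, and it is not needed if Frobenius has `2 g` different eigenvalues. An example in
which no theorem is needed besides the existence of the specialisation: the endomorphisms of `X` and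
every open subgroup of the Galois group act irreducibly on `H^1(X)`, and at one place of good
reduction Frobenius has `2 g` eigenvalues such that no quotient of two of them is a root of unity.

A place of good reduction, with `T = 1`. `X'` is the reduction of `X` over the algebraic closure of
a finite field, at a closed point of a model with good reduction to which the ample class `ξ`
extends, so `s(ξ)` is ample, `s` is the specialisation isomorphism (smooth and proper base change,
specialisation of cycles), and `F` is a power of the Frobenius endomorphism of `X'`. If `X` is
defined over the closure of a finite field then `X' = X`. One power of Frobenius is enough for all
algebraic classes on all powers of `X'`, and no quotient of two different eigenvalues is a root of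
unity.

A place of bad reduction. After a finite extension the reduction is semistable; let `B` be its
abelian part and `t` its toric rank. Then `X' = B × E^t` with a supersingular elliptic curve `E`,
and `F` is the product of a power of the Frobenius endomorphism of `B` and of the multiplication by
the square root of `q` on `E^t`. By Grothendieck's monodromy theorem `H^1(X)` is, as a
representation of the decomposition group, `H^1(B)` and the direct sum of `Λ ⊗ ℂ` with weight `0`
and `Λ' ⊗ ℂ` with weight `2`, for the lattices `Λ`, `Λ'` of rank `t` given by the uniformisation,
and inertia acts through `T = 1 + N`, where `N : Λ' → Λ` is the rational and definite monodromy
pairing. An algebraic class on `X^n` is fixed by `T` and, up to `q^l`, by Frobenius, so it is a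
rational combination of products of algebraic classes on the powers of `B` and of tensors over `Λ`,
`Λ'` that are invariant under the group `SL_2` given by `N` (Mumford, Künnemann: models with strata
which are toric bundles over the powers of `B`), that is, of classes of divisors on the powers of
`E^t`: this is `s` (it is normalised by a quasi-isogeny, so that it preserves `Tr`), and `s(ξ)` is
ample. The pieces which are fixed by `T` belong to the simple factors which have potentially good
reduction at the place, since `Λ ⊗ ℚ` is a faithful module over the endomorphism algebra of the
other factors.

The hypothesis on `X'` and Frobenius has two alternatives. The first one, `F^*` has `2 g` different
eigenvalues on `H^1(X')`, needs no published theorem. The second one, `EQ.Tate`, is the theorem of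
Tate on abelian varieties over finite fields: `F^*` is semisimple on `H^1(X')`, and the maps which
commute with it are combinations of the maps `f^*` for the endomorphisms `f` of `X'` (in the first
case this is clear by Lagrange interpolation, with powers of `F` for `f`). The Hodge index theorem
for divisors on `X' × X'`, the equality `|a|² = q` for the eigenvalues (Weil), and the fact that
algebraic correspondences act on `H^1(X')` as elements of `End(X') ⊗ ℚ` are not assumed: they are
proved from `EQ.Tate` and `EQ.Effective` (folders `FL/K0`, `FL/PT0`, `FL/TT`). The only source of
positivity is that `Tr(f^* θ · θ^(g-1))` is not negative for an endomorphism `f` of `X'` and
`θ = s(ξ)`.

`EQ.Effective` says what a cycle map is: the class of the whole variety is `1`, the class of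
`Z × Z'` is the exterior product, the push-forward of a class of relative dimension `0` is a degree,
so it is not negative; moreover `X'` is a group, and a multiple of the ample class `s(ξ)` is
effective. No
intersection theory of effective cycles is assumed (moving lemma, positivity of intersection
multiplicities). What is needed of it is proved (folder `FL/PT0`): if `φ : D → B` is a morphism of
powers of `X'` and `β` is effective on `B` of codimension `dim D` then `Tr(φ^* β) ≥ 0`, because it
is the degree of the push-forward of the effective class `1 × β` under `D × B → B`, `(a, b) ↦
φ(a)⁻¹ b`; so the sums of the classes `pr_* φ^* β` are a cone which is closed under products,
pull-backs and push-forwards, on which `Tr` is not negative.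

`EQ.CondF`: the stable subspaces of `H^1(X)` are the subspaces stable under the endomorphisms of `X`
and under an open subgroup of the Galois group of `k₀`; by the theorems of Zarhin and Mori (and
Tate, over finite fields) the minimal ones are the pieces: for a simple factor `Y` that occurs `r`
times and has a centre of degree `e` these are `e` pieces of dimension `2 r dim Y / e`. A piece is
isotropic if and only if it is not real, since the Rosati involution is the complex conjugation on
the centre. The condition `few` says: of any `L` real pieces, `L ≥ 6` even, all but at most one of
which are fixed by `T`, such that there are eigenvalues `a_i` of Frobenius on them with `a_1 ⋯ a_L =
q^(L/2)`, none has dimension `32` or more and at most one has dimension `8` or more. If `dim X ≤ 11`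
it holds because `8 + 8 + 4 * 2` and `32` are greater than `22`; for a simple `X` the pieces are
conjugate, so they have the same dimension, and either all of them or none are fixed by `T`. The
symmetries `IsSym` contain `χ(σ)^(i/2) σ` on `H^i` for `σ` in one open subgroup of the Galois group.

The proof. Let `V = H^1(X)` with the symplectic form of `ξ`, and let `B` be the span of the
endomorphisms of `X'` over `ℝ`. By the Hodge index theorem there is an antilinear map `J` of `V`
with `ψ(x, J x) > 0` that commutes with `B`. So the absolute values of the eigenvalues of Frobenius
are `√q` and Frobenius is semisimple, and by the theorem of Tate the symplectic operators that
commute with `B` form a torus `T₀`, they are scalars on the eigenspaces of Frobenius. Let `t` be a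
finite tuple of tensors over `V` that spans all algebraic tensors on the powers of `X` of bounded
length, and `s` a point of minimal norm in the closure of `T₀ t`. The intersection numbers on the
powers of `X'` are rational, so `s` and `J s` have the same `T₀`-invariants, and `J s = k s` for
some unitary `k` in `T₀`. The moment map of the symplectic group at `s` changes its sign under `J`
and does not change under `k`, so it is zero, and `t = x s` for a symplectic `x`. Let `S` be the
Lie algebra of the stabiliser of `s`. It is closed under the adjoint. If `k s = s` then `J s = s`,
the conjugate of `J` by `x` fixes all algebraic tensors over `H^1(X)`, it extends to a
Hodge-Riemann structure of `X` that fixes all algebraic classes on all powers of `X`, and the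
theorem follows.

So let `w` be a word in the vectors of a basis of eigenvectors such that the coefficient of `w` in
`s` is not zero, and let `ε(w)` be the product of the eigenvalues of `k` at its letters. One has to
show `ε(w) = 1`. A word `w` is good with the sign `ε` if some real combination `y` of algebraic
tensors of `X'` has coefficients with `y(w) y(τ w) / ε > 0`, up to the shuffle sign, and the product
of the eigenvalues of Frobenius at its letters is the expected power of `√q`; here `τ` maps a letter
to the dual letter. The words of `s` are good with the sign `ε(w)`. Good words may be multiplied and
contracted, and a letter may be replaced by a letter with the same eigenvalue of Frobenius. The
theorem of the hand-in CodimensionTwo for `X'` says that good words with at most four letters have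
the sign `1`. Call two moves `l → j` and `l' → j'` equivalent if the word `l, τ j, j', τ l'` is
good. If `A` is in `S` then the part of the matrix `A` which belongs to one class of moves is in `S`
too: in the equation `A s = 0` two nonzero terms of one coefficient belong to words of length four
which are good after cancellation, so with the sign `1`. The matrix `N = T - 1` is zero outside the
eigenspace of Frobenius for `√q`; so it commutes with `T₀`, it kills `T₀ t`, hence `s`, and it is in
`S`. Let `a` be a real diagonal matrix in `S` that has different entries on the different
eigenspaces of Frobenius, let `Z` be the centre of the centraliser of `a` in `S`, and consider the
weights of `Z` on `S` (the roots) and on `V`. If `(T_l, b) > 0` and `(T_r, b) < 0` for the weights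
of two letters of a good word and a root `b` of `Z` then one may replace the letters by letters with
the weights `T_l - b` and `T_r + b`, and the word remains good with the same sign. Two letters are
in the same class if the difference of their weights for `Z` is in the lattice generated by the
roots of `Z`. The stable subspaces of `H^1(X)` are stable under `x S x⁻¹`: if an operator of the Lie
algebra kills all algebraic tensors then its exponentials are symmetries, a stable subspace has
only finitely many images under them, so it is mapped to itself. Conversely, the subspaces which
are stable under `S` and the endomorphisms of `X` are stable: the commutant of `S` and the
endomorphisms contains a limit of conjugates by `T₀` of the commutant for `t`, and has the same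
dimension, and `T₀` commutes with the endomorphisms; so both families of subspaces are preserved by
the same matrices, the pieces are stable under `S` and spanned by letters, and each piece belongs to
one class. For a balancing symmetry `M` the matrix `log M / log 2` is in the centre of `S`, with the
value `1` on the piece `V_σ` and `-1` on its conjugate, so a good word has as many letters in `V_σ`
as in its conjugate. The other pieces are not isotropic, `l` and `τ l` are in one class for their
letters, and `Z` acts by zero on the image of `N` in them; those which are not killed by `N` all
belong to the class of `0`. If the sum of the weights of two letters of a good word is in the
lattice then exchanges make the weights opposite, so also the eigenvalues of Frobenius are dual, and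
the letters can be cancelled. So if there is a good word with sum `0` and the sign `-1` then there
is one without letters in isotropic pieces and with letters in pairwise different classes, of length
at least six by the theorem on four letters: its letters are in at least six different pieces, all
but one of which are fixed by `T`, and the product of its eigenvalues of Frobenius is `q^(L/2)`.

From `h` to all ample classes: for real `t` in `[0, 1]` let `L_t = (1 - t) h + t L`. The number
`Tr(L_t^N)` is positive, and the cohomology of `X^n` is the exterior algebra of `H^1(X^n)`, so the
hard Lefschetz theorem holds for `L_t`. As numerical and homological equivalence coincide, the forms
`Tr(L_t^(N-2j) x y)` on the real span `A^j` of the algebraic classes are not degenerate. So the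
signature does not depend on `t`, and by induction on `j` the form for `L` is definite with the
right sign on the primitive part of `A^j`, since `A^j` is the orthogonal sum of it and of `L
A^(j-1)`.

Numerical equivalence is homological equivalence because an algebraic class of numerical degree `0`
would have an optimal one parameter subgroup (Kempf) with a stable filtration of `V`; it is trivial
on the sum of the pieces that are not isotropic, and an isotropic piece and its dual occur equally
often in every component of an algebraic class, so they do not make the weight positive.

One of these six pieces has dimension at least `32`, or two have dimension at least `8`, and this
contradicts the condition on the pieces. Let `h` be a maximal torus of `S` which contains `Z`, let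
`Q` be the root lattice and `A` the span of the roots of `h` which vanish on `a`. The numbers `n(T,
b) = 2 (T, b) / |b|^2` are integers for the weights `T` of `h` on `V` and the roots `b` (theory of
`sl_2`). Choose in each of the six (or more) pieces `U_i` a weight `T_i` of `h` of minimal norm;
then `|n(T_i, b)| ≤ 1` for all roots. Write `2 T_i = b_1 + ... + b_m` with roots `b_j` and `m`
minimal. Then `(b_j, b_l) ≥ 0`, since `b_j + b_l` is a root or `0` if `(b_j, b_l) < 0`, and `2
(T_i, b_j) ≤ |b_j|^2`: so the `b_j` are pairwise orthogonal, and all `2^m` vectors `T_i - ∑_(j ∈ J)
b_j` are weights of `U_i`. If `m = 2` then `b_1 + b_2` is not a root, the root vectors `x_1`, `x_2`
commute, the form `ψ(u, x_1^* x_2^* u')` on the weight space of `T_i` in `U_i` is alternating and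
nondegenerate, so all four weights have multiplicity at least `2`. So `dim U_i ≥ 8`, or `T_i = 0`,
or `r_i = 2 T_i` is a root. Suppose that `dim U_i < 8` for all `i` with one exception `z`. Then
`T_i = 0` for at most one `i`, and there are at least four roots `r_i`; no root is non-orthogonal
to two of them (it would be half of their difference, up to signs, and the two classes would be
equal), and they are pairwise orthogonal. Let `C_i` be the span of the roots which are not
orthogonal to `r_i`. Each root is in `C_i` or orthogonal to `C_i`, so the projection to `C_i` maps
`Q` and `A` to themselves; the sum of the `T_i` is in `Q + A`, and `r_i / 2` is not. So the weights
of `U_z` are not orthogonal to `C_i`, and if one subtracts roots of `C_i` from `T_z` one obtains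
weights `v` of `U_z` with `2 (v, r_i) = ± |r_i|^2` for all these `i` and all choices of the signs:
at least `2^4` weights. There are at least `32` if there are five roots `r_i` or if `v` is not a
combination of the `r_i`; otherwise `v` is a sum of four halves of orthogonal roots, the sum of two
of them is not a root, the four root vectors commute, and as above the form `ψ(u, x_1 x_2 x_3 x_4
u')` shows that the `16` weights have multiplicity at least `2`. (The argument cannot exclude two
pieces of dimension `8`: there are words of this kind with letters in six classes which have `8`,
`8`, `2`, `2`, `2` and `2` letters.)
-/

namespace Pool.Agent.Results.MP_361a6f_ag.AllAlgebraicClasses

open Pool.Agent.Lib.MP_361a6f_ag.FL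

universe u v w w'

theorem result : ThmA.{u, v, w, w'} := thmA

end Pool.Agent.Results.MP_361a6f_ag.AllAlgebraicClasses
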