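import Pool.Agent.Lib.MP_361a6f_ag.FL.B.MainL

/-!
# The Hodge standard conjecture on the algebra generated by the divisors of a liftable variety

Let `X` be a smooth projective variety over a field of characteristic `p` which lifts to
characteristic `0` together with an ample class `ξ`, such that the operator `Λ` of `(X, ξ)` is
algebraic (the Lefschetz standard conjecture). The theorem says that the form of Q1 is positive
definite, in all codimensions, on the algebraic classes generated by ALL divisor classes of `X`,
also those that do not lift, and by all algebraic classes that lift; and the same on all products of
such varieties, where the divisors of the products, the diagonals and the lifts of algebraic classes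
on products are allowed, for all polarisations `∑ c_i pr_i^* ξ (a_i)` with positive rational `c_i`.
In this case all hypotheses are published theorems.

What is new and what is not: for abelian varieties the case of the divisors is due to Milne; for
surfaces with `b_1 = 0` the statement on divisors and correspondences of degree `0` is elementary;
for liftable classes alone it is Hodge theory in characteristic `0`; for complete intersections of
dimension at least `3` all divisors lift. The new cases begin with irregular surfaces, with
varieties of dimension at least `3` whose Picard number jumps (threefolds of Kodaira dimension less
than `3`, Hilbert schemes of points of surfaces, generalised Kummer varieties, flag bundles and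
blow-ups over these, products with abelian varieties), and with their products. In these cases the
cup product of non-liftable divisors with the transcendental cohomology is a real constraint.

The cohomology `W` has complex coefficients, for instance `H_l ⊗ ℂ` for an embedding of `ℚ_l` in
`ℂ`, and `k` algebraically closed. The lift enters through a Hodge-Riemann structure `j` of
`(X, ξ)`: by the comparison theorems `H^*(X)` is `H^*(X', ℂ)` for a lift `X'`, and `j` is complex
conjugation followed by the Weil operator. It fixes the algebraic classes that lift. The number `r P` is a codimension up to which Q1 is known for
the product `P`; for `r = 1` this is the Hodge index theorem, for `r P = dim P` on single factors it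
is Q1 for the single factors. (If `H^*(X)` is generated by `H^1(X)`, of dimension `2 dim X`, then a
Hodge-Riemann structure always exists.)

The proof: let `*` be the Lefschetz star operator of `ξ a`, and `ψ(x, y) = Tr(x · *y)`. The form
`ψ(x, j y)` is hermitian and positive definite on `V = ⊕ H^*(X a)`. Let `G` be the group of the
automorphisms of `V` which respect the grading, the factors and `ψ`, let `b` be a finite tuple of
algebraic tensors fixed by `j` with the same stabiliser in `G` as all such tensors, and let `G_b` be
this stabiliser; it acts on every `H^*(X a)` by automorphisms of the algebra which fix `ξ a`. Since
`b` is real for `j`, it is a critical point of the norm on its orbit, `G_b` is the complexification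
of the compact group `K_b` of its elements that commute with `j`, and every tensor fixed by `K_b`
is a diagram in `b` (a linear combination of contractions of permuted tensor products of members
of `b`), hence a combination of algebraic classes. Let `t` be a finite tuple of the algebraic
tensors of codimension at most `r`, with the same stabiliser in `G_b` as all of them. The function
`|g t|²`, `g` in `G_b`, attains its minimum on the closure of the orbit, say at `s`. The projections
of the real diagrams in `b` and `t` to the spaces of the members of `t` are real combinations of
algebraic tensors of codimension at most `r`, so `ψ` is positive on them, and the same holds for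
`s`. This implies that `s` lies in the orbit of `t`, and, by the average over `K_b` of the powers of
the form and Laplace's method, that `j s = s`. So `J' = g j g⁻¹` fixes `t` for some `g` in `G_b`,
it fixes all algebraic classes fixed by `j` since `g` does, and it is multiplicative. The operators
`J' ⊗ ⋯ ⊗ J'` commute with coordinate projections, permutations, diagonals, exterior products and
cup products. So they fix all classes which are generated as above, and the form `ψ` of a product is
positive definite on the algebraic classes fixed by `J' ⊗ ⋯ ⊗ J'`.
-/

namespace Pool.Agent.Results.MP_361a6f_ag.LiftableVarieties

open CategoryTheory AlgebraicGeometry MonoidalCategory CartesianMonoidalCategory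
  Pool.Agent.Lib.MP_361a6f_ag.H3 Pool.Agent.Lib.MP_361a6f_ag.SQ Pool.Agent.Lib.MP_361a6f_ag.PP
  Pool.Agent.Lib.MP_361a6f_ag.FL

universe u w

theorem result {k : Type u} [Field k]
    (W : CohomologyData.{u, 0, w} k ℂ) (𝒱 : VarietyClass k) (hW : IsWeilCohomology W 𝒱)
    -- varieties `X a` of dimension `n a` with divisor classes `ξ a` of positive degree, with hard
    -- Lefschetz and the Lefschetz standard conjecture
    {m : ℕ} {X : Fin m → Sch k} {n : Fin m → ℕ} (hX : ∀ a, 𝒱.mem (X a) (n a))
    {ξ : ∀ a, W.coh (X a)} (hξ : ∀ a, PositiveDivisor W (X a) (n a) (ξ a))
    (hL : ∀ a, HardLefschetz W (X a) (n a) (ξ a)) (hΛ : ∀ a, AlgebraicLambda W (X a) (n a) (ξ a))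
    -- Hodge-Riemann structures on the cohomology of the `X a` and their tensor products `J P`
    (J : ∀ P : Prd m, W.coh (P.obj X) →ₛₗ[starRingEnd ℂ] W.coh (P.obj X))
    (hj : ∀ a, HRStr W (X a) (n a) (ξ a) (J (.leaf a)))
    (hJ : ∀ (P Q : Prd m) (y : W.coh (P.obj X)) (x : W.coh (Q.obj X)),
      J (.prod P Q) (W.ext y x) = W.ext (J P y) (J Q x))
    -- `Q1` for the products `P` and the sum of the classes `ξ a`, in the codimensions at most `r P`
    (r : Prd m → ℕ)
    (hQ : ∀ (P : Prd m) (i : ℕ), i ≤ r P → HodgeCodim W (P.obj X) (P.dim n) (P.pol W ξ) i)
    -- a product of the `X a` and a class `∑ c_i pr_i^* ξ (a_i)`
    (P : Prd m) (η : W.coh (P.obj X)) (hη : IsPol W ξ P η) :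
    HodgeOn W (P.obj X) (P.dim n) η (spanL W X r J P) :=
  mainL W 𝒱 hW hX hξ hL hΛ J hj hJ r hQ P η hη

end Pool.Agent.Results.MP_361a6f_ag.LiftableVarieties
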