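import Pool.Agent.Lib.MP_361a6f_ag.FL.Z.MainG
import Pool.Agent.Lib.MP_361a6f_ag.FL.Z.MidEx

/-!
# The signs of the algebraic classes on products of abelian varieties and complete intersections

Let `X a` be finitely many smooth proper varieties over any field with `H^0(X a) = ℂ` and with
divisor classes `ξ a` of positive degree. Each of them is an abelian variety (a unital law
`X × X → X` is enough), or it has dimension `n > 0` and, for `i ≠ n`, the space `H^i(X a)` consists
of the multiples of `(ξ a)^(i/2)` (and is `0` for odd `i`): `OnlyMiddle`. This is true for curves,
for surfaces with `b_1 = 0`, for instance K3 surfaces and Enriques surfaces (both are proved in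
`FL/Z/MidEx`), and for smooth hypersurfaces and complete intersections of any dimension in
projective spaces (weak Lefschetz theorem), in any characteristic. Let `P` be a product of some of
the `X a`, with repetitions. The theorem is about ALL algebraic classes of all codimensions on all
products `P`; it has no hypothesis besides the axioms of a Weil cohomology.

Let `A^l(P)` be the real span of the algebraic classes of codimension `l` on `P` and `N^l(P)` its
subspace of the classes that are numerically equivalent to `0`. There are real subspaces `E^l(P)`
(even classes) and `O^l(P)` (odd classes) of `A^l(P)`, for all `P` and `l` at once, with `E + O = A`
and `E ∩ O = N`, so `A/N = E/N ⊕ O/N`, such that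
* (`Grading`) the parity is multiplicative (`EE ⊆ E`, `OO ⊆ E`, `EO ⊆ O` for cup products, hence for
  exterior products and for the composition of correspondences), and pull-backs and push-forwards
  along projections, permutations of the factors and diagonals preserve it;
* (`Signs`) Grothendieck's form `(-1)^l Tr(η^(d-2l) z²)` is positive definite on the primitive
  classes of `E/N` and negative definite on those of `O/N`, for all polarisations
  `η = ∑ c_i pr_i^* ξ (a_i)`; Q1 holds for `P` in codimension at most `i` if and only if
  `O^l(P) = 0` for all `l ≤ i`, and the same motive by motive: if `e` is an idempotent algebraic
  correspondence of degree `0` on `P` that is even and commutes with `ξ`, then Q1 holds on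
  `e C^l(P)` for all `l ≤ i` if and only if `e O^l(P) = 0` for all `l ≤ i`. Since Q1 holds in
  codimension `1`, everything generated by divisors is even, for instance the graphs of the
  homomorphisms;
* (`Sizes`) let `p = ∑_l dim E^l/N^l` and `q = ∑_l dim O^l/N^l` be the numbers of the even and of
  the odd classes. If all `X a` have a unital law, then `q ≤ p` on all products. For the powers
  `X^n` of one `X` (`m = 1`), with `D = dim H^*(X)`: if there is one odd class that is not in `N` on
  one power `X^r`, then `p - q ≤ (D - 2/r^2)^n` for ALL `n`, although
  `p + q ≥ D^n / (600 D^3 n)^(D^2)`. The proportion `p / dim ℂ C^*(X^n)` of the even classes in the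
  algebraic classes tends to `1`, `1/2` or `0`: to `1` if and only if homological and numerical
  equivalence coincide and `O = 0` on all powers, that is, Q1 holds for all powers in all
  codimensions; to `1/2` if and only if homological and numerical equivalence coincide on all powers
  and Q1 fails on one of them; to `0` if and only if homological and numerical equivalence do not
  coincide on one of them.

So there are only two possibilities for the powers of one `X` (an abelian variety, a curve, a K3
surface, a hypersurface ...): either all classes are even modulo numerical equivalence, which is Q1
for all powers modulo numerical equivalence, or the even and the odd classes are equidistributed,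
`q/p → 1`, for abelian varieties exponentially fast. A quadratic form is always the sum of a
positive and a negative one; what is not formal is that one splitting works for all products, is
multiplicative and functorial, and has these sizes. In other words: the category of the numerical
motives with real coefficients which is generated by the `X a` has a tensor involution `θ` (`θ = 1`
on `E`, `θ = -1` on `O`) such that the form `(x, y) ↦ (x, θ y)` is a polarisation in the sense of
Saavedra Rivano and Deligne-Milne, and Q1 says that `θ = 1` (and that homological and numerical
equivalence coincide). (Milne, Annals 155 (2002), deduced Q1 for abelian varieties from the Hodge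
conjecture for complex abelian varieties of CM type, in the language of polarisations; Ancona,
Inventiones 223 (2021), proved Q1 for motives of rank `2`, and so for abelian fourfolds; Koshikawa
treated the squares of simple abelian varieties of prime dimension, Agugliaro the powers of abelian
varieties of dimension at most `3`, Ito, Ito and Koshikawa the squares of K3 surfaces. Nothing is
assumed or used here on the Hodge or the Tate conjecture, or on liftings, and there is no
restriction on the dimension.)

The cohomology `W` has complex coefficients, for instance `H_l ⊗ ℂ` for an embedding of `ℚ_l` in
`ℂ`, and `k` algebraically closed.

The proof. Hard Lefschetz and the Lefschetz standard conjecture for `X a` are proved from the unital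
law, and so is the existence of a Hodge-Riemann structure `j` on `H^*(X a) = ∧ H^1(X a)`; in the
other case `Λ = ∑_r r (n-r+1) / Tr(ξ^n) ξ^(n-r) × ξ^(r-1)`, and `j` is the complex conjugation on
the powers of `ξ` and comes from a basis adapted to the form on the primitive part of `H^n(X a)`.
Let `*` be the Lefschetz star operator of `ξ a`, and `ψ(x, y) = Tr(x · *y)`. The form `ψ(x, j y)` is
hermitian and positive definite on `V = ⊕ H^*(X a)`. Let `G` be the group of the automorphisms of
`V` which respect the grading, the factors and `ψ`, let `b` be a finite tuple of algebraic tensors
fixed by `J_0 = j ⊗ ⋯ ⊗ j` with the same stabiliser `G_b` in `G` as all such tensors, and `K_b` the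
compact group of the elements of `G_b` that commute with `j`. The elements of `G_b` act on the
cohomology of all products by automorphisms of algebras which commute with the correspondences above
and with the trace. Let `t` be a finite tuple of algebraic tensors that spans all algebraic tensors
of length at most `L`, let `s = lim g_n t` be a vector of minimal norm in the closure of the orbit
`G_b t`, and `s(u) = lim g_n u` for the algebraic tensors `u` of length at most `L`. The invariants
of `s` are those of `t`; they are rational, so `J_0 s` has the same invariants and the same norm as
`s`, and by the average over `K_b` of the powers of the form and Laplace's method `J_0 s = κ s` for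
some `κ` in `K_b`. Let `M_R` be the real span of the diagrams in `b` and `s`, and `M` the complex
span. The tensors fixed by the stabiliser of `s` in `K_b` are in `M`, and `σ = κ⁻¹ J_0` is the
complex conjugation of `M` over `M_R`. Since `ψ(s(u), f) = ψ(u, f_t)` is rational for a diagram `f`
in `b`, `s` and the same diagram `f_t` in `b`, `t`, the vector `s(u) - σ s(u)` is orthogonal to `M`,
on which `ψ` is nondegenerate, so it is `0`: `s(u)` lies in `M_R`. Since `J_0 M = M`, `κ` preserves
`M_R`, and `κ² = 1` on `M_R`, which consists of the vectors `s(u)`, `u` in the real span of the
algebraic tensors. To have one `κ` for all lengths, weights are used: `t` is replaced by `(w_i t_i)`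
with `∑ w_i² |t_i|² < ∞`, then the minimal vectors `s` are bounded, and one takes limits of `s` and
`κ`. Now `z` is even (odd) if `J_0 s(z) = κ s(z) = ± s(z)`. Then
`ψ(z, z) = ψ(s(z), s(z)) = ± ψ(s(z), J_0 s(z))`, and this is positive (negative) if `s(z) ≠ 0`, that
is, if `z` is not numerically trivial.

The sizes. So `(p, q)` is the signature of `ψ` on `A`, and `p - q` is the trace of `κ` on the
tensors of length `n` fixed by the stabiliser `K_s` of `s` in `K_b`, the mean over `x` in the coset
`κ K_s` of the product of the traces of `x` on the `n` factors `H^*(X a)`. For abelian varieties this
trace is the determinant of `1 + x` on `H^1(X a)`, which is not negative since `x` is unitary and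
symplectic. If `c` is a tensor of length `r` with `x c = - c` for all `x` in `κ K_s` then the
distance of `x` to `1` is at least `2/r`, so `|tr x| ≤ D - 2/r²`. The dimension of the fixed tensors
of length `n` is at least `D^n / (600 D^3 n)^(D^2)` by the measure of a small ball in the unitary
group. If there is a numerically trivial class `z ≠ 0` on `X^r`, then one compares the fixed tensors
of length `n` with the space that is generated from them and `z`: the number of the classes on `X^n`
that are not numerically trivial, divided by the number of all classes, tends to `0`.
-/

namespace Pool.Agent.Results.MP_361a6f_ag.SignGrading

open Pool.Agent.Lib.MP_361a6f_ag.FL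

universe u w

theorem result : SignStatement.{u, w} := mainSign

end Pool.Agent.Results.MP_361a6f_ag.SignGrading
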